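import Mathlib

set_option autoImplicit false
set_option linter.unusedSectionVars false

namespace Pool.Agent.Lib.FracTree

open Finset MeasureTheory intervalIntegral

/-- Fubini on the triangle. -/
lemma tri_aux (f : ℝ → ℝ) (c t : ℝ) (ht : t ∈ Set.Icc (0 : ℝ) c) :
    ∫ s in (0 : ℝ)..(c - t), f s = ∫ s in (0 : ℝ)..c, (if t + s ≤ c then f s else 0) := by
  have hc : 0 ≤ c := ht.1.trans ht.2
  have h1 : (fun s => if t + s ≤ c then f s else 0)
      = Set.indicator (Set.Iic (c - t)) f := by
    funext s
    by_cases h : t + s ≤ c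
    · rw [if_pos h, Set.indicator_of_mem]
      simp only [Set.mem_Iic]; linarith
    · rw [if_neg h, Set.indicator_of_notMem]
      simp only [Set.mem_Iic]; intro h'; apply h; linarith
  rw [h1, intervalIntegral.integral_of_le hc, intervalIntegral.integral_of_le (by linarith [ht.2]),
    setIntegral_indicator measurableSet_Iic]
  congr 1
  rw [Set.Ioc_inter_Iic, min_eq_right (by linarith [ht.1])]

lemma tri_swap (F : ℝ → ℝ → ℝ) (hF : Continuous (Function.uncurry F)) (c : ℝ) (hc : 0 ≤ c) :
    ∫ t in (0 : ℝ)..c, ∫ s in (0 : ℝ)..(c - t), F t s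
      = ∫ s in (0 : ℝ)..c, ∫ t in (0 : ℝ)..(c - s), F t s := by
  have h1 : ∫ t in (0 : ℝ)..c, ∫ s in (0 : ℝ)..(c - t), F t s
      = ∫ t in (0 : ℝ)..c, ∫ s in (0 : ℝ)..c, (if t + s ≤ c then F t s else 0) := by
    apply intervalIntegral.integral_congr
    intro t ht
    rw [Set.uIcc_of_le hc] at ht
    exact tri_aux (F t) c t ht
  have h2 : ∫ s in (0 : ℝ)..c, ∫ t in (0 : ℝ)..(c - s), F t s
      = ∫ s in (0 : ℝ)..c, ∫ t in (0 : ℝ)..c, (if t + s ≤ c then F t s else 0) := by
    apply intervalIntegral.integral_congr
    intro s hs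
    rw [Set.uIcc_of_le hc] at hs
    have := tri_aux (fun t => F t s) c s hs
    simp only at this ⊢
    rw [this]
    apply intervalIntegral.integral_congr
    intro t _
    simp only [add_comm]
  rw [h1, h2]
  apply intervalIntegral_intervalIntegral_swap
  have h3 : (Function.uncurry fun t s => if t + s ≤ c then F t s else 0)
      = Set.indicator {p : ℝ × ℝ | p.1 + p.2 ≤ c} (Function.uncurry F) := by
    funext p
    by_cases h : p.1 + p.2 ≤ c
    · rw [Set.indicator_of_mem (by exact h)]
      simp only [Function.uncurry, if_pos h]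
    · rw [Set.indicator_of_notMem (by exact h)]
      simp only [Function.uncurry, if_neg h]
  rw [h3]
  apply IntegrableOn.indicator
  · have hK : IsCompact (Set.uIcc (0 : ℝ) c ×ˢ Set.uIcc (0 : ℝ) c) :=
      isCompact_uIcc.prod isCompact_uIcc
    exact (hF.continuousOn.integrableOn_compact hK).mono_set
      (Set.prod_mono Set.uIoc_subset_uIcc Set.uIoc_subset_uIcc)
  · exact (isClosed_le (by fun_prop) (by fun_prop)).measurableSet

variable {V : Type*}

/-- The simplex integral, as an iterated integral. -/
noncomputable def II (r : V → V → ℝ) (X : Finset V) : List V → (V → ℝ) → ℝ → ℝ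
  | [], a, _ => ∏ x ∈ X, a x
  | q :: qs, a, c => ∫ t in (0 : ℝ)..c, II r X qs (fun v => a v - t * r q v) (c - t)

lemma continuous_II (r : V → V → ℝ) (X : Finset V) (qs : List V) :
    Continuous (fun p : (V → ℝ) × ℝ => II r X qs p.1 p.2) := by
  induction qs with
  | nil =>
    simp only [II]
    fun_prop
  | cons q qs ih =>
    simp only [II]
    apply intervalIntegral.continuous_parametric_intervalIntegral_of_continuous
      (f := fun (p : (V → ℝ) × ℝ) (t : ℝ) => II r X qs (fun v => p.1 v - t * r q v) (p.2 - t))
    · have : (Function.uncurry fun (p : (V → ℝ) × ℝ) (t : ℝ) =>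
          II r X qs (fun v => p.1 v - t * r q v) (p.2 - t))
          = (fun p : (V → ℝ) × ℝ => II r X qs p.1 p.2) ∘
            (fun x : ((V → ℝ) × ℝ) × ℝ => ((fun v => x.1.1 v - x.2 * r q v), x.1.2 - x.2)) := by
        funext x
        rfl
      rw [this]
      apply ih.comp
      fun_prop
    · fun_prop

lemma continuous_II_step (r : V → V → ℝ) (X : Finset V) (qs : List V) (q : V) (a : V → ℝ) (c : ℝ) :
    Continuous (fun t : ℝ => II r X qs (fun v => a v - t * r q v) (c - t)) := by
  have : (fun t : ℝ => II r X qs (fun v => a v - t * r q v) (c - t))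
      = (fun p : (V → ℝ) × ℝ => II r X qs p.1 p.2) ∘
        (fun t : ℝ => ((fun v => a v - t * r q v), c - t)) := by
    funext t
    rfl
  rw [this]
  apply (continuous_II r X qs).comp
  fun_prop

lemma II_perm (r : V → V → ℝ) (X : Finset V) {l₁ l₂ : List V} (h : l₁.Perm l₂) :
    ∀ (a : V → ℝ) (c : ℝ), 0 ≤ c → II r X l₁ a c = II r X l₂ a c := by
  induction h with
  | nil => intro a c _; rfl
  | cons q _ ih =>
    intro a c hc
    simp only [II]
    apply intervalIntegral.integral_congr
    intro t ht
    rw [Set.uIcc_of_le hc] at ht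
    exact ih _ _ (by linarith [ht.2])
  | swap q q' l =>
    intro a c hc
    simp only [II]
    rw [tri_swap (fun t s => II r X l (fun v => a v - t * r q' v - s * r q v) (c - t - s)) _ c hc]
    · apply intervalIntegral.integral_congr
      intro s _
      apply intervalIntegral.integral_congr
      intro t _
      simp only
      congr 1
      · funext v; ring
      · ring
    · have : (Function.uncurry fun (t s : ℝ) =>
          II r X l (fun v => a v - t * r q' v - s * r q v) (c - t - s))
          = (fun p : (V → ℝ) × ℝ => II r X l p.1 p.2) ∘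
            (fun x : ℝ × ℝ => ((fun v => a v - x.1 * r q' v - x.2 * r q v), c - x.1 - x.2)) := by
        funext x
        rfl
      rw [this]
      apply (continuous_II r X l).comp
      fun_prop
  | trans _ _ ih₁ ih₂ =>
    intro a c hc
    rw [ih₁ a c hc, ih₂ a c hc]

end Pool.Agent.Lib.FracTree
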