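import Mathlib

set_option autoImplicit false

namespace Pool.Agent.Lib.FracTree

open Finset

/-- `EE n j τ = C(n+j,j) (1-e^{-τ})^j e^{-(n+1)τ}`. -/
noncomputable def EE (n j : ℕ) (τ : ℝ) : ℝ :=
  ((n + j).choose j : ℝ) * (1 - Real.exp (-τ)) ^ j * Real.exp (-τ) ^ (n + 1)

/-- Lower bound functions for the mass of the growth process. -/
noncomputable def BB (n k : ℕ) (τ : ℝ) : ℝ := 1 - ∑ j ∈ range k, EE n j τ

lemma BB_zero (n : ℕ) (τ : ℝ) : BB n 0 τ = 1 := by simp [BB]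

lemma BB_succ (n k : ℕ) (τ : ℝ) : BB n (k + 1) τ = BB n k τ - EE n k τ := by
  unfold BB
  rw [Finset.sum_range_succ]
  ring

lemma BB_succ_at_zero (n k : ℕ) : BB n (k + 1) 0 = 0 := by
  induction k with
  | zero => simp [BB, EE]
  | succ k ih =>
    rw [BB_succ, ih]
    simp [EE]

lemma EE_nonneg (n j : ℕ) {τ : ℝ} (hτ : 0 ≤ τ) : 0 ≤ EE n j τ := by
  unfold EE
  have h1 : Real.exp (-τ) ≤ 1 := Real.exp_le_one_iff.mpr (by linarith)
  have h2 : 0 ≤ 1 - Real.exp (-τ) := by linarith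
  have h3 : 0 < Real.exp (-τ) := Real.exp_pos _
  positivity

lemma hasDerivAt_exp_neg (τ : ℝ) :
    HasDerivAt (fun t => Real.exp (-t)) (-Real.exp (-τ)) τ := by
  have h := (hasDerivAt_neg τ).exp
  simpa using h

lemma hasDerivAt_EE_zero (n : ℕ) (τ : ℝ) :
    HasDerivAt (EE n 0) (-((n : ℝ) + 1) * EE n 0 τ) τ := by
  have h := (hasDerivAt_exp_neg τ).fun_pow (n + 1)
  have h2 : EE n 0 = fun t => Real.exp (-t) ^ (n + 1) := by
    funext t; simp [EE]
  rw [h2]
  refine h.congr_deriv ?_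
  simp only [Nat.add_sub_cancel]
  push_cast
  ring

lemma hasDerivAt_EE_succ (n k : ℕ) (τ : ℝ) :
    HasDerivAt (EE n (k + 1))
      (((n : ℝ) + k + 1) * EE n k τ - ((n : ℝ) + k + 2) * EE n (k + 1) τ) τ := by
  have h0 := hasDerivAt_exp_neg τ
  have h1 : HasDerivAt (fun t => (1 : ℝ) - Real.exp (-t)) (Real.exp (-τ)) τ := by
    have := h0.const_sub 1
    simpa using this
  have h2 := ((h1.fun_pow (k + 1)).fun_mul (h0.fun_pow (n + 1))).const_mul
    (((n + (k + 1)).choose (k + 1) : ℝ))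
  have hf : EE n (k + 1) = fun t => ((n + (k + 1)).choose (k + 1) : ℝ) *
      ((1 - Real.exp (-t)) ^ (k + 1) * Real.exp (-t) ^ (n + 1)) := by
    funext t
    simp only [EE]
    ring
  rw [hf]
  refine h2.congr_deriv ?_
  have hch : (((n + (k + 1)).choose (k + 1) : ℝ)) * ((k : ℝ) + 1)
      = ((n : ℝ) + k + 1) * ((n + k).choose k : ℝ) := by
    have := Nat.add_one_mul_choose_eq (n + k) k
    have h' : ((n : ℝ) + k + 1) * ((n + k).choose k : ℝ)
        = ((n + k + 1).choose (k + 1) : ℝ) * ((k : ℝ) + 1) := by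
      exact_mod_cast this
    rw [h']
    rfl
  simp only [Nat.add_sub_cancel]
  unfold EE
  set q := Real.exp (-τ) with hq
  push_cast
  have e1 : ((n + (k + 1)).choose (k + 1) : ℝ) * (((k : ℝ) + 1) * (1 - q) ^ k * q * q ^ (n + 1)
      + (1 - q) ^ (k + 1) * (((n : ℝ) + 1) * q ^ n * -q))
      = (((n + (k + 1)).choose (k + 1) : ℝ) * ((k : ℝ) + 1)) * (1 - q) ^ k * q ^ (n + 1)
        - ((n : ℝ) + k + 2) * (((n + (k + 1)).choose (k + 1) : ℝ) * (1 - q) ^ (k + 1) * q ^ (n + 1)) := by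
    ring
  rw [e1, hch]
  ring

lemma hasDerivAt_BB (n k : ℕ) (τ : ℝ) :
    HasDerivAt (BB n (k + 1)) (((n : ℝ) + k + 1) * EE n k τ) τ := by
  induction k with
  | zero =>
    have h := (hasDerivAt_EE_zero n τ).const_sub 1
    have h2 : BB n (0 + 1) = fun t => 1 - EE n 0 t := by
      funext t; simp [BB]
    rw [h2]
    refine h.congr_deriv ?_
    push_cast
    ring
  | succ k ih =>
    have h := ih.sub (hasDerivAt_EE_succ n k τ)
    have h2 : BB n (k + 1 + 1) = BB n (k + 1) - EE n (k + 1) := by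
      funext t
      rw [BB_succ, Pi.sub_apply]
    rw [h2]
    refine h.congr_deriv ?_
    push_cast
    ring

lemma continuous_EE (n k : ℕ) : Continuous (EE n k) := by
  unfold EE
  fun_prop

lemma continuous_BB (n k : ℕ) : Continuous (BB n k) := by
  unfold BB
  have := continuous_EE n
  fun_prop

end Pool.Agent.Lib.FracTree
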