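import Mathlib
import Pool.Agent.Lib.MP_df0165_co.Frac.Numeric

set_option autoImplicit false
set_option linter.unusedSectionVars false

namespace Pool.Agent.Lib.FracTree

open Finset MeasureTheory intervalIntegral

variable {V : Type*} [DecidableEq V]

/-- The survival polynomial. -/
noncomputable def PP (X : Finset V) (a ρ : V → ℝ) (t : ℝ) : ℝ := ∏ x ∈ X, (a x - t * ρ x)

/-- Minus its derivative. -/
noncomputable def QQ (X : Finset V) (a ρ : V → ℝ) (t : ℝ) : ℝ :=
  ∑ y ∈ X, ρ y * ∏ x ∈ X.erase y, (a x - t * ρ x)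

lemma hasDerivAt_PP (X : Finset V) (a ρ : V → ℝ) (t : ℝ) :
    HasDerivAt (PP X a ρ) (-QQ X a ρ t) t := by
  have h : ∀ x ∈ X, HasDerivAt (fun t => a x - t * ρ x) (-ρ x) t := by
    intro x _
    have := ((hasDerivAt_id t).mul_const (ρ x)).const_sub (a x)
    simpa using this
  have h2 := HasDerivAt.fun_finsetProd h
  refine h2.congr_deriv ?_
  unfold QQ
  rw [← Finset.sum_neg_distrib]
  apply Finset.sum_congr rfl
  intro y _
  rw [smul_eq_mul]
  ring

lemma continuous_PP (X : Finset V) (a ρ : V → ℝ) : Continuous (PP X a ρ) := by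
  unfold PP
  fun_prop

lemma continuous_QQ (X : Finset V) (a ρ : V → ℝ) : Continuous (QQ X a ρ) := by
  unfold QQ
  fun_prop

lemma PP_zero (X : Finset V) (a ρ : V → ℝ) : PP X a ρ 0 = ∏ x ∈ X, a x := by
  unfold PP
  simp

lemma integral_QQ_le (X : Finset V) (a ρ : V → ℝ) (c : ℝ)
    (hc : ∀ x, 0 ≤ a x - c * ρ x) :
    ∫ t in (0 : ℝ)..c, QQ X a ρ t ≤ ∏ x ∈ X, a x := by
  have h : ∫ t in (0 : ℝ)..c, QQ X a ρ t = -PP X a ρ c - (-PP X a ρ 0) := by
    apply intervalIntegral.integral_eq_sub_of_hasDerivAt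
    · intro t _
      have := (hasDerivAt_PP X a ρ t).fun_neg
      simpa using this
    · exact (continuous_QQ X a ρ).intervalIntegrable _ _
  rw [h, PP_zero]
  have : 0 ≤ PP X a ρ c := Finset.prod_nonneg (fun x _ => hc x)
  linarith

lemma QQ_ge (X : Finset V) (a ρ : V → ℝ) (t D : ℝ)
    (h0 : ∀ x, 0 ≤ a x - t * ρ x) (h1 : ∀ x, a x - t * ρ x ≤ 1)
    (hρ : ∀ x, 0 ≤ ρ x) (hD : D ≤ ∑ y ∈ X, ρ y) :
    D * PP X a ρ t ≤ QQ X a ρ t := by
  have hP : 0 ≤ PP X a ρ t := Finset.prod_nonneg (fun x _ => h0 x)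
  calc D * PP X a ρ t ≤ (∑ y ∈ X, ρ y) * PP X a ρ t := mul_le_mul_of_nonneg_right hD hP
    _ = ∑ y ∈ X, ρ y * PP X a ρ t := by rw [Finset.sum_mul]
    _ ≤ QQ X a ρ t := by
        unfold QQ
        apply Finset.sum_le_sum
        intro y hy
        apply mul_le_mul_of_nonneg_left _ (hρ y)
        unfold PP
        rw [← Finset.mul_prod_erase X _ hy]
        have : 0 ≤ ∏ x ∈ X.erase y, (a x - t * ρ x) := Finset.prod_nonneg (fun x _ => h0 x)
        calc (a y - t * ρ y) * ∏ x ∈ X.erase y, (a x - t * ρ x)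
            ≤ 1 * ∏ x ∈ X.erase y, (a x - t * ρ x) :=
              mul_le_mul_of_nonneg_right (h1 y) this
          _ = _ := one_mul _

lemma integral_QQ_ge (X : Finset V) (a ρ : V → ℝ) (c : ℝ) (hc0 : 0 ≤ c)
    (h0 : ∀ t ∈ Set.Icc (0 : ℝ) c, ∀ x, 0 ≤ a x - t * ρ x)
    (h1 : ∀ t ∈ Set.Icc (0 : ℝ) c, ∀ x, a x - t * ρ x ≤ 1)
    (hρ : ∀ x, 0 ≤ ρ x) (n k : ℕ) (hD : (n : ℝ) + k + 1 ≤ ∑ y ∈ X, ρ y) :
    BB n (k + 1) c * ∏ x ∈ X, a x ≤ ∫ t in (0 : ℝ)..c, BB n k (c - t) * QQ X a ρ t := by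
  -- the auxiliary function
  have hB : ∀ t : ℝ, HasDerivAt (fun t => BB n (k + 1) (c - t))
      (-(((n : ℝ) + k + 1) * EE n k (c - t))) t := by
    intro t
    have h2 : HasDerivAt (fun t : ℝ => c - t) (-1) t := by
      simpa using (hasDerivAt_id t).const_sub c
    have := (hasDerivAt_BB n k (c - t)).comp t h2
    refine this.congr_deriv ?_
    ring
  have hΨ : ∀ t ∈ Set.uIcc 0 c, HasDerivAt (fun t => -(PP X a ρ t * BB n (k + 1) (c - t)))
      (QQ X a ρ t * BB n (k + 1) (c - t)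
        + PP X a ρ t * (((n : ℝ) + k + 1) * EE n k (c - t))) t := by
    intro t _
    have := ((hasDerivAt_PP X a ρ t).mul (hB t)).neg
    refine this.congr_deriv ?_
    ring
  have hcB1 : Continuous (fun t => BB n (k + 1) (c - t)) :=
    (continuous_BB n (k + 1)).comp (by fun_prop)
  have hcB0 : Continuous (fun t => BB n k (c - t)) :=
    (continuous_BB n k).comp (by fun_prop)
  have hcE : Continuous (fun t => EE n k (c - t)) :=
    (continuous_EE n k).comp (by fun_prop)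
  have hcP := continuous_PP X a ρ
  have hcQ := continuous_QQ X a ρ
  have hint := intervalIntegral.integral_eq_sub_of_hasDerivAt hΨ
    (Continuous.intervalIntegrable (by fun_prop) _ _)
  have hval : -(PP X a ρ c * BB n (k + 1) (c - c)) - -(PP X a ρ 0 * BB n (k + 1) (c - 0))
      = BB n (k + 1) c * ∏ x ∈ X, a x := by
    rw [sub_self, BB_succ_at_zero, sub_zero, PP_zero]
    ring
  rw [hval] at hint
  rw [← hint]
  apply intervalIntegral.integral_mono_on hc0
  · exact Continuous.intervalIntegrable (by fun_prop) _ _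
  · exact Continuous.intervalIntegrable (by fun_prop) _ _
  · intro t ht
    have hE : 0 ≤ EE n k (c - t) := EE_nonneg n k (by linarith [ht.2])
    have hq := QQ_ge X a ρ t _ (h0 t ht) (h1 t ht) hρ hD
    have h3 : BB n (k + 1) (c - t) = BB n k (c - t) - EE n k (c - t) := BB_succ n k _
    rw [h3]
    have h4 := mul_le_mul_of_nonneg_right hq hE
    nlinarith [h4]

end Pool.Agent.Lib.FracTree
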