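import Mathlib
import Pool.Agent.Lib.MP_df0165_co.Frac.Integral
import Pool.Agent.Lib.MP_df0165_co.Frac.OneDim

set_option autoImplicit false
set_option linter.unusedSectionVars false

namespace Pool.Agent.Lib.FracTree

open Finset MeasureTheory intervalIntegral Classical

variable {U V : Type*} [Fintype U] [Fintype V]

/-- Valid growth orders: pairs (new vertex, parent). -/
def Valid : Finset U → List (U × U) → Prop
  | D, [] => D = Finset.univ
  | D, s :: l => s.1 ∉ D ∧ s.2 ∈ D ∧ Valid (insert s.1 D) l

/-- Injective extensions of a partial map. -/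
noncomputable def Ext (ψ : U → V) (D : Finset U) : Finset (U → V) :=
  Finset.univ.filter (fun φ => Function.Injective φ ∧ ∀ u ∈ D, φ u = ψ u)

lemma mem_Ext {ψ : U → V} {D : Finset U} {φ : U → V} :
    φ ∈ Ext ψ D ↔ Function.Injective φ ∧ ∀ u ∈ D, φ u = ψ u := by
  simp [Ext]

/-- Mass of the growth process. -/
noncomputable def mass (r : V → V → ℝ) (l : List (U × U)) (ψ : U → V) (D : Finset U)
    (a : V → ℝ) (c : ℝ) : ℝ :=
  ∑ φ ∈ Ext ψ D, (l.map (fun s => r (φ s.2) (φ s.1))).prod *
    II r (Finset.univ.image φ)ᶜ (l.map (fun s => φ s.2)) a c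

lemma Ext_fibre (ψ : U → V) (D : Finset U) (w : U) (hw : w ∉ D) (y : V) :
    (Ext ψ D).filter (fun φ => φ w = y) = Ext (Function.update ψ w y) (insert w D) := by
  ext φ
  simp only [Finset.mem_filter, mem_Ext, Finset.mem_insert]
  constructor
  · rintro ⟨⟨h1, h2⟩, h3⟩
    refine ⟨h1, ?_⟩
    rintro u (rfl | hu)
    · rw [Function.update_self, h3]
    · rw [Function.update_of_ne (fun h : u = w => hw (h ▸ hu)), h2 u hu]
  · rintro ⟨h1, h2⟩
    refine ⟨⟨h1, ?_⟩, ?_⟩
    · intro u hu
      rw [h2 u (Or.inr hu), Function.update_of_ne (fun h : u = w => hw (h ▸ hu))]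
    · rw [h2 w (Or.inl rfl), Function.update_self]

lemma mass_cons (r : V → V → ℝ) (w p : U) (l : List (U × U)) (ψ : U → V) (D : Finset U)
    (a : V → ℝ) (c : ℝ) (hw : w ∉ D) (hp : p ∈ D) :
    mass r ((w, p) :: l) ψ D a c = ∫ t in (0 : ℝ)..c, ∑ y ∈ (D.image ψ)ᶜ, r (ψ p) y *
      mass r l (Function.update ψ w y) (insert w D) (fun v => a v - t * r (ψ p) v) (c - t) := by
  have hmaps : ∀ φ ∈ Ext ψ D, φ w ∈ (D.image ψ)ᶜ := by
    intro φ hφ
    rw [mem_Ext] at hφ
    rw [Finset.mem_compl, Finset.mem_image]
    rintro ⟨u, hu, h⟩
    rw [← hφ.2 u hu] at h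
    exact hw (hφ.1 h ▸ hu)
  unfold mass
  rw [← Finset.sum_fiberwise_of_maps_to hmaps, intervalIntegral.integral_finsetSum]
  · apply Finset.sum_congr rfl
    intro y _
    rw [Ext_fibre ψ D w hw y]
    simp_rw [Finset.mul_sum]
    rw [intervalIntegral.integral_finsetSum]
    · apply Finset.sum_congr rfl
      intro φ hφ
      rw [mem_Ext] at hφ
      have h1 : φ w = y := by
        rw [hφ.2 w (Finset.mem_insert_self _ _), Function.update_self]
      have h2 : φ p = ψ p := by
        rw [hφ.2 p (Finset.mem_insert_of_mem hp), Function.update_of_ne (fun h : p = w => hw (h ▸ hp))]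
      simp only [List.map_cons, List.prod_cons, II, h1, h2]
      rw [intervalIntegral.integral_const_mul, intervalIntegral.integral_const_mul]
      ring
    · intro φ _
      apply Continuous.intervalIntegrable
      have := continuous_II_step r (Finset.univ.image φ)ᶜ (l.map (fun s => φ s.2)) (ψ p) a c
      fun_prop
  · intro y _
    apply Continuous.intervalIntegrable
    apply Continuous.mul continuous_const
    apply continuous_finsetSum
    intro φ _
    have := continuous_II_step r (Finset.univ.image φ)ᶜ (l.map (fun s => φ s.2)) (ψ p) a c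
    fun_prop

lemma continuous_mass_step (r : V → V → ℝ) (l : List (U × U)) (ψ : U → V) (D : Finset U)
    (q : V) (a : V → ℝ) (c : ℝ) :
    Continuous (fun t : ℝ => mass r l ψ D (fun v => a v - t * r q v) (c - t)) := by
  unfold mass
  apply continuous_finsetSum
  intro φ _
  have := continuous_II_step r (Finset.univ.image φ)ᶜ (l.map (fun s => φ s.2)) q a c
  fun_prop

theorem mass_bounds (r : V → V → ℝ) (R : ℝ) (n m : ℕ)
    (hr0 : ∀ x y, 0 ≤ r x y) (hrR : ∀ x y, r x y ≤ R)
    (hdeg : ∀ (S : Finset V) (q : V), q ∈ S → ((n : ℝ) + m) + 1 - S.card ≤ ∑ y ∈ Sᶜ, r q y) :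
    ∀ (l : List (U × U)) (D : Finset U) (ψ : U → V) (a : V → ℝ) (c : ℝ), Valid D l →
      Set.InjOn ψ D → 0 ≤ c → (∀ v, c * R ≤ a v) → (∀ v, a v ≤ 1) →
      D.card + l.length = m + 1 →
      BB n l.length c * ∏ v ∈ (D.image ψ)ᶜ, a v ≤ mass r l ψ D a c ∧
      mass r l ψ D a c ≤ ∏ v ∈ (D.image ψ)ᶜ, a v := by
  intro l
  induction l with
  | nil =>
    intro D ψ a c hV hinj _ _ _ _
    have hD : D = Finset.univ := hV
    subst hD
    have hψ : Function.Injective ψ := by
      intro x y h
      exact hinj (by simp) (by simp) h
    have hE : Ext ψ Finset.univ = {ψ} := by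
      ext φ
      rw [mem_Ext, Finset.mem_singleton]
      constructor
      · rintro ⟨_, h⟩
        funext u
        exact h u (Finset.mem_univ u)
      · rintro rfl
        exact ⟨hψ, fun _ _ => rfl⟩
    unfold mass
    rw [hE, Finset.sum_singleton]
    simp [II, BB_zero]
  | cons s l ih =>
    obtain ⟨w, p⟩ := s
    intro D ψ a c hV hinj hc ha0 ha1 hcard
    obtain ⟨hw, hp, hV'⟩ := hV
    simp only at hw hp hV'
    rw [mass_cons r w p l ψ D a c hw hp]
    set X := (D.image ψ)ᶜ with hX
    set q := ψ p with hq
    have hq_mem : q ∈ D.image ψ := Finset.mem_image_of_mem ψ hp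
    have hR0 : 0 ≤ R := le_trans (hr0 q q) (hrR q q)
    -- the residual thresholds
    have hlow : ∀ t ∈ Set.Icc (0 : ℝ) c, ∀ v, (c - t) * R ≤ a v - t * r q v := by
      intro t ht v
      have h1 := ha0 v
      have h2 : t * r q v ≤ t * R := mul_le_mul_of_nonneg_left (hrR q v) ht.1
      nlinarith
    have hlow0 : ∀ t ∈ Set.Icc (0 : ℝ) c, ∀ v, 0 ≤ a v - t * r q v := by
      intro t ht v
      exact le_trans (mul_nonneg (by linarith [ht.2]) hR0) (hlow t ht v)
    have hup : ∀ t ∈ Set.Icc (0 : ℝ) c, ∀ v, a v - t * r q v ≤ 1 := by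
      intro t ht v
      have h1 := ha1 v
      have h2 : 0 ≤ t * r q v := mul_nonneg ht.1 (hr0 q v)
      linarith
    -- step: the image after placing y
    have himg : ∀ y ∈ X, ((insert w D).image (Function.update ψ w y))ᶜ = X.erase y := by
      intro y _
      have : (insert w D).image (Function.update ψ w y) = insert y (D.image ψ) := by
        rw [Finset.image_insert, Function.update_self]
        congr 1
        apply Finset.image_congr
        intro u hu
        have hu' : u ≠ w := fun h => hw (h ▸ hu)
        simp [Function.update_of_ne hu']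
      rw [this, hX]
      ext v
      simp only [Finset.mem_compl, Finset.mem_insert, Finset.mem_erase]
      tauto
    have hinj' : ∀ y ∈ X, Set.InjOn (Function.update ψ w y) (insert w D : Finset U) := by
      intro y hy
      have hy' : ∀ u ∈ D, ψ u ≠ y := by
        intro u hu h
        rw [hX, Finset.mem_compl] at hy
        exact hy (h ▸ Finset.mem_image_of_mem ψ hu)
      intro u hu v hv huv
      rw [Finset.mem_coe, Finset.mem_insert] at hu hv
      rcases hu with rfl | hu
      · rcases hv with rfl | hv
        · rfl
        · have hv' : v ≠ u := fun h => hw (h ▸ hv)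
          rw [Function.update_self, Function.update_of_ne hv'] at huv
          exact absurd huv.symm (hy' v hv)
      · have hu' : u ≠ w := fun h => hw (h ▸ hu)
        rcases hv with rfl | hv
        · rw [Function.update_self, Function.update_of_ne hu'] at huv
          exact absurd huv (hy' u hu)
        · have hv' : v ≠ w := fun h => hw (h ▸ hv)
          rw [Function.update_of_ne hu', Function.update_of_ne hv'] at huv
          exact hinj hu hv huv
    have hcard' : (insert w D).card + l.length = m + 1 := by
      rw [Finset.card_insert_of_notMem hw]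
      simp only [List.length_cons] at hcard
      omega
    have IH : ∀ t ∈ Set.Icc (0 : ℝ) c, ∀ y ∈ X,
        BB n l.length (c - t) * ∏ v ∈ X.erase y, (a v - t * r q v)
          ≤ mass r l (Function.update ψ w y) (insert w D) (fun v => a v - t * r q v) (c - t) ∧
        mass r l (Function.update ψ w y) (insert w D) (fun v => a v - t * r q v) (c - t)
          ≤ ∏ v ∈ X.erase y, (a v - t * r q v) := by
      intro t ht y hy
      have := ih (insert w D) (Function.update ψ w y) (fun v => a v - t * r q v) (c - t) hV'
        (hinj' y hy) (by linarith [ht.2]) (hlow t ht) (hup t ht) hcard'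
      rw [himg y hy] at this
      exact this
    have hcont : Continuous (fun t : ℝ => ∑ y ∈ X, r q y *
        mass r l (Function.update ψ w y) (insert w D) (fun v => a v - t * r q v) (c - t)) := by
      apply continuous_finsetSum
      intro y _
      exact continuous_const.mul (continuous_mass_step r l _ _ q a c)
    constructor
    · -- lower bound
      have hD : (n : ℝ) + (l.length : ℕ) + 1 ≤ ∑ y ∈ X, r q y := by
        have h1 := hdeg (D.image ψ) q hq_mem
        rw [Finset.card_image_of_injOn hinj] at h1
        have h2 : (D.card : ℝ) + (l.length + 1) = m + 1 := by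
          exact_mod_cast hcard
        rw [← hX] at h1
        linarith
      have h1 := integral_QQ_ge X a (r q) c hc hlow0 hup (hr0 q) n l.length hD
      refine le_trans h1 ?_
      apply intervalIntegral.integral_mono_on hc
      · apply Continuous.intervalIntegrable
        have hcB0 : Continuous (fun t => BB n l.length (c - t)) :=
          (continuous_BB n l.length).comp (by fun_prop)
        exact hcB0.mul (continuous_QQ X a (r q))
      · exact hcont.intervalIntegrable _ _
      · intro t ht
        unfold QQ
        rw [Finset.mul_sum]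
        apply Finset.sum_le_sum
        intro y hy
        have := mul_le_mul_of_nonneg_left (IH t ht y hy).1 (hr0 q y)
        linarith
    · -- upper bound
      refine le_trans ?_ (integral_QQ_le X a (r q) c (hlow0 c ⟨hc, le_refl c⟩))
      apply intervalIntegral.integral_mono_on hc
      · exact hcont.intervalIntegrable _ _
      · exact (continuous_QQ X a (r q)).intervalIntegrable _ _
      · intro t ht
        unfold QQ
        apply Finset.sum_le_sum
        intro y hy
        exact mul_le_mul_of_nonneg_left (IH t ht y hy).2 (hr0 q y)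

end Pool.Agent.Lib.FracTree
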