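import Mathlib
import Pool.Agent.Lib.MP_df0165_co.Frac.Mass

set_option autoImplicit false
set_option linter.unusedSectionVars false

namespace Pool.Agent.Lib.FracTree

open Finset Classical

variable {U : Type*} [Fintype U]

/-- The edge of a growth step. -/
def stepEdge (s : U × U) : Sym2 U := s(s.2, s.1)

lemma grow (T : SimpleGraph U) (hT : T.Connected) (n : ℕ) : ∀ (D : Finset U), D.Nonempty →
    Dᶜ.card = n → ∃ l : List (U × U), Valid D l ∧ ∀ s ∈ l, T.Adj s.2 s.1 := by
  induction n with
  | zero =>
    intro D _ h
    refine ⟨[], ?_, by simp⟩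
    rw [Finset.card_eq_zero, Finset.compl_eq_empty_iff] at h
    exact h
  | succ n ih =>
    intro D hD h
    have hne : Dᶜ.Nonempty := by
      rw [← Finset.card_pos]; omega
    obtain ⟨v, hv⟩ := hne
    obtain ⟨u, hu⟩ := hD
    obtain ⟨p⟩ := hT.preconnected u v
    obtain ⟨d, _, hd1, hd2⟩ := p.exists_boundary_dart (D : Set U) (by simpa using hu)
      (by simpa using hv)
    rw [Finset.mem_coe] at hd1 hd2
    obtain ⟨l, hl1, hl2⟩ := ih (insert d.snd D) (Finset.insert_nonempty _ _) (by
      rw [Finset.card_compl, Finset.card_insert_of_notMem hd2]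
      rw [Finset.card_compl] at h
      omega)
    refine ⟨(d.snd, d.fst) :: l, ⟨hd2, hd1, hl1⟩, ?_⟩
    intro s hs
    rw [List.mem_cons] at hs
    rcases hs with rfl | hs
    · exact d.adj
    · exact hl2 s hs

lemma Valid.card : ∀ (l : List (U × U)) (D : Finset U), Valid D l →
    D.card + l.length = Fintype.card U := by
  intro l
  induction l with
  | nil =>
    intro D h
    have hD : D = Finset.univ := h
    subst hD
    simp
  | cons s l ih =>
    intro D h
    obtain ⟨h1, _, h3⟩ := h
    have := ih _ h3
    rw [Finset.card_insert_of_notMem h1] at this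
    rw [List.length_cons]
    omega

lemma Valid.fst_notMem : ∀ (l : List (U × U)) (D : Finset U), Valid D l →
    ∀ s ∈ l, s.1 ∉ D := by
  intro l
  induction l with
  | nil => intro D _ s hs; simp at hs
  | cons s l ih =>
    intro D h t ht
    obtain ⟨h1, _, h3⟩ := h
    rw [List.mem_cons] at ht
    rcases ht with rfl | ht
    · exact h1
    · exact fun h => ih _ h3 t ht (Finset.mem_insert_of_mem h)

lemma Valid.count_fst : ∀ (l : List (U × U)) (D : Finset U), Valid D l →
    ∀ u, (l.map Prod.fst).count u = if u ∈ D then 0 else 1 := by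
  intro l
  induction l with
  | nil =>
    intro D h u
    have hD : D = Finset.univ := h
    subst hD
    simp
  | cons s l ih =>
    intro D h u
    obtain ⟨h1, _, h3⟩ := h
    rw [List.map_cons, List.count_cons, ih _ h3 u]
    by_cases hu : u = s.1
    · subst hu
      simp [h1]
    · have hu' : ¬ (s.1 = u) := fun h => hu h.symm
      by_cases huD : u ∈ D
      · simp [hu', huD]
      · simp [hu, hu', huD]

lemma Valid.edges_nodup : ∀ (l : List (U × U)) (D : Finset U), Valid D l →
    (l.map stepEdge).Nodup := by
  intro l
  induction l with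
  | nil => intro D _; simp
  | cons s l ih =>
    intro D h
    obtain ⟨h1, h2, h3⟩ := h
    rw [List.map_cons, List.nodup_cons]
    refine ⟨?_, ih _ h3⟩
    intro hmem
    rw [List.mem_map] at hmem
    obtain ⟨t, ht, hts⟩ := hmem
    have ht1 := Valid.fst_notMem l _ h3 t ht
    have : t.1 ∈ stepEdge s := by
      rw [← hts]
      simp [stepEdge]
    simp only [stepEdge, Sym2.mem_iff] at this
    rcases this with h | h
    · exact ht1 (h ▸ Finset.mem_insert_of_mem h2)
    · exact ht1 (h ▸ Finset.mem_insert_self _ _)

/-- The list in which every tree vertex `u` occurs `deg u - 1` times. -/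
noncomputable def canon (T : SimpleGraph U) : List U :=
  (Finset.univ : Finset U).toList.flatMap (fun u => List.replicate (T.degree u - 1) u)

lemma count_flatMap_replicate (f : U → ℕ) (l : List U) (hl : l.Nodup) (u : U) :
    (l.flatMap (fun u => List.replicate (f u) u)).count u = if u ∈ l then f u else 0 := by
  induction l with
  | nil => simp
  | cons v l ih =>
    rw [List.nodup_cons] at hl
    rw [List.flatMap_cons, List.count_append, ih hl.2, List.count_replicate]
    by_cases hv : v = u
    · subst hv
      simp [hl.1]
    · have hv' : ¬ u = v := fun h => hv h.symm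
      simp [hv, hv']

lemma count_canon (T : SimpleGraph U) (u : U) : (canon T).count u = T.degree u - 1 := by
  unfold canon
  rw [count_flatMap_replicate (fun u => T.degree u - 1) _ (Finset.nodup_toList _)]
  simp

/-- Growing a tree from a root edge. -/
theorem exists_growth (T : SimpleGraph U) (hT : T.IsTree) (a b : U) (hab : T.Adj a b) :
    ∃ l : List (U × U), Valid {a, b} l ∧ l.length + 2 = Fintype.card U ∧
      (∀ f : Sym2 U → ℝ, ∏ e ∈ T.edgeFinset, f e = f s(a, b) * (l.map (fun s => f (stepEdge s))).prod) ∧
      (l.map Prod.snd).Perm (canon T) := by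
  have hne : a ≠ b := hab.ne
  obtain ⟨l, hl1, hl2⟩ := grow T hT.connected _ {a, b} ⟨a, by simp⟩ rfl
  have hcard := Valid.card l _ hl1
  rw [Finset.card_pair hne] at hcard
  set EL : List (Sym2 U) := s(a, b) :: l.map stepEdge with hEL
  have hnd : EL.Nodup := by
    rw [hEL, List.nodup_cons]
    refine ⟨?_, Valid.edges_nodup l _ hl1⟩
    intro hmem
    rw [List.mem_map] at hmem
    obtain ⟨t, ht, hts⟩ := hmem
    have ht1 := Valid.fst_notMem l _ hl1 t ht
    have : t.1 ∈ s(a, b) := by
      rw [← hts]
      simp [stepEdge]
    apply ht1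
    simpa using this
  have hsub : EL.toFinset ⊆ T.edgeFinset := by
    intro e he
    rw [List.mem_toFinset, hEL, List.mem_cons, List.mem_map] at he
    rw [SimpleGraph.mem_edgeFinset]
    rcases he with rfl | ⟨t, ht, rfl⟩
    · exact hab
    · exact hl2 t ht
  have hELcard : EL.toFinset.card = T.edgeFinset.card := by
    rw [List.toFinset_card_of_nodup hnd, hEL, List.length_cons, List.length_map]
    have := hT.card_edgeFinset
    omega
  have hEq : EL.toFinset = T.edgeFinset := Finset.eq_of_subset_of_card_le hsub (by omega)
  have hprod : ∀ {M : Type} [CommMonoid M] (f : Sym2 U → M), ∏ e ∈ T.edgeFinset, f e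
      = f s(a, b) * (l.map (fun s => f (stepEdge s))).prod := by
    intro M _ f
    rw [← hEq, List.prod_toFinset f hnd, hEL, List.map_cons, List.prod_cons, List.map_map]
    rfl
  refine ⟨l, hl1, by omega, fun f => hprod f, ?_⟩
  rw [List.perm_iff_count]
  intro u
  rw [count_canon]
  -- the degree of u
  have hsum : T.degree u = (if u ∈ s(a, b) then 1 else 0)
      + (l.map (fun s => if u ∈ stepEdge s then 1 else 0)).sum := by
    have h2 : T.degree u = ∑ e ∈ T.edgeFinset, (if u ∈ e then 1 else 0) := by
      rw [← T.card_incidenceFinset_eq_degree u, T.incidenceFinset_eq_filter u,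
        Finset.card_filter]
    rw [h2]
    rw [← hEq, List.sum_toFinset _ hnd, hEL, List.map_cons, List.sum_cons, List.map_map]
    rfl
  have hcountl : ∀ l' : List (U × U), (∀ s ∈ l', T.Adj s.2 s.1) →
      (l'.map (fun s => if u ∈ stepEdge s then 1 else 0)).sum
        = (l'.map Prod.snd).count u + (l'.map Prod.fst).count u := by
    intro l' hl'
    induction l' with
    | nil => simp
    | cons s l' ih =>
      rw [List.map_cons, List.sum_cons, ih (fun t ht => hl' t (List.mem_cons_of_mem _ ht)),
        List.map_cons, List.map_cons, List.count_cons, List.count_cons]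
      have hs := (hl' s List.mem_cons_self).ne
      by_cases h1 : s.2 = u
      · have h2 : ¬ s.1 = u := fun h => hs (h1.trans h.symm)
        simp [stepEdge, h1, h2]
        omega
      · by_cases h2 : s.1 = u
        · simp [stepEdge, h1, h2]
          omega
        · have h1' : ¬ u = s.2 := fun h => h1 h.symm
          have h2' : ¬ u = s.1 := fun h => h2 h.symm
          simp [stepEdge, h1, h2, h1', h2']
  rw [hcountl l hl2, Valid.count_fst l _ hl1 u] at hsum
  rw [hsum]
  by_cases hu : u ∈ ({a, b} : Finset U)
  · have hu' : u ∈ s(a, b) := by simpa using hu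
    rw [if_pos hu, if_pos hu']
    omega
  · have hu' : ¬ u ∈ s(a, b) := by simpa using hu
    rw [if_neg hu, if_neg hu']
    omega

end Pool.Agent.Lib.FracTree
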