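import Mathlib
import Pool.Agent.Lib.MP_df0165_co.Frac.Tree

set_option autoImplicit false
set_option linter.unusedSectionVars false

namespace Pool.Agent.Lib.FracTree

open Finset Classical MeasureTheory intervalIntegral

variable {U V : Type*} [Fintype U] [Fintype V]

lemma II_nonneg (r : V → V → ℝ) (R : ℝ) (hR : 0 ≤ R) (hrR : ∀ x y, r x y ≤ R) (X : Finset V) :
    ∀ (qs : List V) (a : V → ℝ) (c : ℝ), 0 ≤ c → (∀ v, c * R ≤ a v) → 0 ≤ II r X qs a c := by
  intro qs
  induction qs with
  | nil =>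
    intro a c hc ha
    simp only [II]
    exact Finset.prod_nonneg (fun x _ => le_trans (mul_nonneg hc hR) (ha x))
  | cons q qs ih =>
    intro a c hc ha
    simp only [II]
    apply intervalIntegral.integral_nonneg hc
    intro t ht
    apply ih _ _ (by linarith [ht.2])
    intro v
    have h1 := ha v
    have h2 : t * r q v ≤ t * R := mul_le_mul_of_nonneg_left (hrR q v) ht.1
    nlinarith

/-- The weight of an injective map. -/
noncomputable def WW (T : SimpleGraph U) (ρ : Sym2 V → ℝ) (L : ℝ) (φ : U → V) : ℝ :=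
  (∏ e ∈ T.edgeFinset, ρ (e.map φ)) *
    II (fun x y => ρ s(x, y)) (Finset.univ.image φ)ᶜ ((canon T).map φ) (fun _ => 1) L

lemma WW_nonneg (T : SimpleGraph U) (ρ : Sym2 V → ℝ) (L R : ℝ) (hL : 0 ≤ L) (hR : 0 ≤ R)
    (hLR : L * R ≤ 1) (h0 : ∀ e, 0 ≤ ρ e) (hρR : ∀ e, ρ e ≤ R) (φ : U → V) :
    0 ≤ WW T ρ L φ := by
  unfold WW
  apply mul_nonneg
  · exact Finset.prod_nonneg (fun e _ => h0 _)
  · exact II_nonneg _ R hR (fun x y => hρR _) _ _ _ L hL (fun _ => hLR)

lemma root_sum (T : SimpleGraph U) (ρ : Sym2 V → ℝ) (L : ℝ) (hL : 0 ≤ L)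
    (a b : U) (ψ : U → V) (l : List (U × U))
    (hprod : ∀ f : Sym2 U → ℝ, ∏ e ∈ T.edgeFinset, f e
      = f s(a, b) * (l.map (fun s => f (stepEdge s))).prod)
    (hperm : (l.map Prod.snd).Perm (canon T)) :
    ∑ φ ∈ Ext ψ {a, b}, WW T ρ L φ
      = ρ s(ψ a, ψ b) * mass (fun x y => ρ s(x, y)) l ψ {a, b} (fun _ => 1) L := by
  unfold mass
  rw [Finset.mul_sum]
  apply Finset.sum_congr rfl
  intro φ hφ
  rw [mem_Ext] at hφ
  have ha : φ a = ψ a := hφ.2 a (by simp)
  have hb : φ b = ψ b := hφ.2 b (by simp)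
  unfold WW
  rw [hprod (fun e => ρ (e.map φ)), ← ha, ← hb]
  have h1 : II (fun x y => ρ s(x, y)) (Finset.univ.image φ)ᶜ ((canon T).map φ) (fun _ => 1) L
      = II (fun x y => ρ s(x, y)) (Finset.univ.image φ)ᶜ (l.map (fun s => φ s.2))
        (fun _ => 1) L := by
    apply II_perm _ _ _ _ _ hL
    have := (hperm.map φ).symm
    rw [List.map_map] at this
    exact this
  rw [h1]
  simp only [Sym2.map_mk, stepEdge]
  ring

/-- Coverage indicator. -/
noncomputable def cover (T : SimpleGraph U) (φ : U → V) (e : Sym2 V) : ℝ :=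
  if ∃ e' ∈ T.edgeSet, Sym2.map φ e' = e then 1 else 0

lemma cover_eq (T : SimpleGraph U) (φ : U → V) (hφ : Function.Injective φ) (z y : V) :
    cover T φ s(z, y) = ∑ d : T.Dart, if φ d.fst = z ∧ φ d.snd = y then 1 else 0 := by
  unfold cover
  by_cases h : ∃ e' ∈ T.edgeSet, Sym2.map φ e' = s(z, y)
  · rw [if_pos h]
    obtain ⟨e', he', hmap⟩ := h
    have hex : ∃ d : T.Dart, φ d.fst = z ∧ φ d.snd = y := by
      induction e' with
      | _ a b =>
        rw [SimpleGraph.mem_edgeSet] at he'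
        rw [Sym2.map_mk, Sym2.eq_iff] at hmap
        rcases hmap with ⟨h1, h2⟩ | ⟨h1, h2⟩
        · exact ⟨⟨(a, b), he'⟩, h1, h2⟩
        · exact ⟨⟨(b, a), he'.symm⟩, h2, h1⟩
    obtain ⟨d, hd1, hd2⟩ := hex
    rw [Finset.sum_eq_single d]
    · rw [if_pos ⟨hd1, hd2⟩]
    · intro d' _ hne
      rw [if_neg]
      rintro ⟨h1, h2⟩
      apply hne
      have e1 : d'.fst = d.fst := hφ (h1.trans hd1.symm)
      have e2 : d'.snd = d.snd := hφ (h2.trans hd2.symm)
      exact SimpleGraph.Dart.ext _ _ (Prod.ext e1 e2)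
    · intro h; exact absurd (Finset.mem_univ d) h
  · rw [if_neg h]
    symm
    apply Finset.sum_eq_zero
    intro d _
    rw [if_neg]
    rintro ⟨h1, h2⟩
    apply h
    refine ⟨s(d.fst, d.snd), d.adj, ?_⟩
    rw [Sym2.map_mk, h1, h2]

/-- The total weight of the injective maps covering an edge is `2m` times the weight of the edge
times a factor in `[B, 1]`. -/
theorem usage_bounds (T : SimpleGraph U) (hT : T.IsTree) (ρ : Sym2 V → ℝ) (L R : ℝ)
    (n m : ℕ) (hm : m + 1 = Fintype.card U) (hm1 : 1 ≤ m)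
    (hL : 0 ≤ L) (hLR : L * R ≤ 1) (h0 : ∀ e, 0 ≤ ρ e) (hρR : ∀ e, ρ e ≤ R)
    (hdeg : ∀ (S : Finset V) (q : V), q ∈ S → ((n : ℝ) + m) + 1 - S.card ≤ ∑ y ∈ Sᶜ, ρ s(q, y))
    (z y : V) (hzy : z ≠ y) :
    (2 * m : ℝ) * (ρ s(z, y) * BB n (m - 1) L)
      ≤ ∑ φ : U → V with Function.Injective φ, WW T ρ L φ * cover T φ s(z, y) ∧
    ∑ φ : U → V with Function.Injective φ, WW T ρ L φ * cover T φ s(z, y)
      ≤ (2 * m : ℝ) * ρ s(z, y) := by
  have hswap : ∑ φ : U → V with Function.Injective φ, WW T ρ L φ * cover T φ s(z, y)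
      = ∑ d : T.Dart, ∑ φ ∈ Ext (fun u => if u = d.fst then z else y) {d.fst, d.snd},
        WW T ρ L φ := by
    have h1 : ∀ φ ∈ (Finset.univ : Finset (U → V)).filter (fun φ => Function.Injective φ),
        WW T ρ L φ * cover T φ s(z, y)
          = ∑ d : T.Dart, if φ d.fst = z ∧ φ d.snd = y then WW T ρ L φ else 0 := by
      intro φ hφ
      rw [Finset.mem_filter] at hφ
      rw [cover_eq T φ hφ.2 z y, Finset.mul_sum]
      apply Finset.sum_congr rfl
      intro d _
      split_ifs <;> simp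
    rw [Finset.sum_congr rfl h1, Finset.sum_comm]
    apply Finset.sum_congr rfl
    intro d _
    rw [← Finset.sum_filter, Finset.filter_filter]
    apply Finset.sum_congr _ (fun _ _ => rfl)
    ext φ
    have hd : d.snd ≠ d.fst := d.adj.ne'
    simp [mem_Ext, hd]
  rw [hswap]
  have hcardD : Fintype.card T.Dart = 2 * m := by
    rw [T.dart_card_eq_twice_card_edges]
    have := hT.card_edgeFinset
    omega
  have hR0 : 0 ≤ R := le_trans (h0 s(z, y)) (hρR _)
  have hd : ∀ d : T.Dart, ρ s(z, y) * BB n (m - 1) L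
      ≤ ∑ φ ∈ Ext (fun u => if u = d.fst then z else y) {d.fst, d.snd}, WW T ρ L φ ∧
      ∑ φ ∈ Ext (fun u => if u = d.fst then z else y) {d.fst, d.snd}, WW T ρ L φ ≤ ρ s(z, y) := by
    intro d
    obtain ⟨l, hl1, hl2, hl3, hl4⟩ := exists_growth T hT d.fst d.snd d.adj
    have hne : d.snd ≠ d.fst := d.adj.ne'
    rw [root_sum T ρ L hL d.fst d.snd _ l hl3 hl4]
    simp only [if_true, hne, if_false]
    have hb := mass_bounds (fun x y => ρ s(x, y)) R n m (fun x y => h0 _) (fun x y => hρR _) hdeg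
      l {d.fst, d.snd} (fun u => if u = d.fst then z else y) (fun _ => 1) L hl1 (by
        intro u hu v hv huv
        simp only [Finset.coe_insert, Finset.coe_singleton, Set.mem_insert_iff,
          Set.mem_singleton_iff] at hu hv
        rcases hu with rfl | rfl
        · rcases hv with rfl | rfl
          · rfl
          · simp only [if_true, hne, if_false] at huv
            exact absurd huv hzy
        · rcases hv with rfl | rfl
          · simp only [if_true, hne, if_false] at huv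
            exact absurd huv.symm hzy
          · rfl) hL (fun _ => hLR) (fun _ => le_refl _) (by
        rw [Finset.card_pair d.adj.ne]
        omega)
    simp only [Finset.prod_const_one, mul_one] at hb
    have hlen : l.length = m - 1 := by omega
    rw [hlen] at hb
    constructor
    · exact mul_le_mul_of_nonneg_left hb.1 (h0 _)
    · have := mul_le_mul_of_nonneg_left hb.2 (h0 s(z, y))
      rw [mul_one] at this
      exact this
  constructor
  · calc (2 * m : ℝ) * (ρ s(z, y) * BB n (m - 1) L)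
        = ∑ d : T.Dart, ρ s(z, y) * BB n (m - 1) L := by
          rw [Finset.sum_const, Finset.card_univ, hcardD, nsmul_eq_mul]
          push_cast
          ring
      _ ≤ _ := Finset.sum_le_sum (fun d _ => (hd d).1)
  · calc _ ≤ ∑ d : T.Dart, ρ s(z, y) := Finset.sum_le_sum (fun d _ => (hd d).2)
      _ = (2 * m : ℝ) * ρ s(z, y) := by
          rw [Finset.sum_const, Finset.card_univ, hcardD, nsmul_eq_mul]
          push_cast
          ring

end Pool.Agent.Lib.FracTree
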