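import Mathlib
import Pool.Agent.Lib.MP_df0165_co.Frac.Usage

set_option autoImplicit false
set_option linter.unusedSectionVars false

namespace Pool.Agent.Lib.FracTree

open Finset Classical

variable {U V : Type*} [Fintype U] [Fintype V]

/-- Injective homomorphisms. -/
noncomputable def Homs (T : SimpleGraph U) (G : SimpleGraph V) : Finset (U → V) :=
  Finset.univ.filter (fun φ => Function.Injective φ ∧ ∀ a b, T.Adj a b → G.Adj (φ a) (φ b))

lemma mem_Homs {T : SimpleGraph U} {G : SimpleGraph V} {φ : U → V} :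
    φ ∈ Homs T G ↔ Function.Injective φ ∧ ∀ a b, T.Adj a b → G.Adj (φ a) (φ b) := by
  simp [Homs]

lemma cover_nonneg (T : SimpleGraph U) (φ : U → V) (e : Sym2 V) : 0 ≤ cover T φ e := by
  unfold cover; split_ifs <;> norm_num

lemma cover_off (T : SimpleGraph U) (G : SimpleGraph V) (φ : U → V) (hφ : φ ∈ Homs T G)
    (e : Sym2 V) (he : e ∉ G.edgeSet) : cover T φ e = 0 := by
  unfold cover
  rw [if_neg]
  rintro ⟨e', he', rfl⟩
  apply he
  rw [mem_Homs] at hφ
  induction e' with
  | _ a b =>
    rw [Sym2.map_mk, SimpleGraph.mem_edgeSet]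
    exact hφ.2 a b he'

/-- The usage vector of a weight system. -/
noncomputable def usage (T : SimpleGraph U) (G : SimpleGraph V) :
    ((U → V) → ℝ) →ₗ[ℝ] (Sym2 V → ℝ) where
  toFun ω := fun e => ∑ φ ∈ Homs T G, ω φ * cover T φ e
  map_add' ω₁ ω₂ := by
    funext e
    simp only [Pi.add_apply, add_mul, Finset.sum_add_distrib]
  map_smul' c ω := by
    funext e
    simp only [Pi.smul_apply, smul_eq_mul, RingHom.id_apply, Finset.mul_sum, mul_assoc]

lemma usage_apply (T : SimpleGraph U) (G : SimpleGraph V) (ω : (U → V) → ℝ) (e : Sym2 V) :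
    usage T G ω e = ∑ φ ∈ Homs T G, ω φ * cover T φ e := rfl

lemma sum_homs_eq (T : SimpleGraph U) (G : SimpleGraph V) (ρ : Sym2 V → ℝ) (L : ℝ)
    (hoff : ∀ e, e ∉ G.edgeSet → ρ e = 0) (e : Sym2 V) :
    ∑ φ ∈ Homs T G, WW T ρ L φ * cover T φ e
      = ∑ φ : U → V with Function.Injective φ, WW T ρ L φ * cover T φ e := by
  apply Finset.sum_subset
  · intro φ hφ
    rw [mem_Homs] at hφ
    simp [hφ.1]
  · intro φ hφ hnot
    rw [Finset.mem_filter] at hφ
    rw [mem_Homs] at hnot
    push Not at hnot
    obtain ⟨a, b, hab, hG⟩ := hnot hφ.2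
    have : WW T ρ L φ = 0 := by
      unfold WW
      rw [Finset.prod_eq_zero (i := s(a, b))]
      · simp
      · rw [SimpleGraph.mem_edgeFinset]; exact hab
      · rw [Sym2.map_mk]
        exact hoff _ hG
    rw [this, zero_mul]

lemma degree_sum (G : SimpleGraph V) (ρ : Sym2 V → ℝ) (N : ℕ)
    (hN : ∀ v, N ≤ ((Finset.univ : Finset V).filter (fun y => G.Adj v y)).card)
    (h0 : ∀ e, 0 ≤ ρ e) (h1 : ∀ e ∈ G.edgeSet, 1 ≤ ρ e)
    (S : Finset V) (q : V) (hq : q ∈ S) :
    (N : ℝ) + 1 - S.card ≤ ∑ y ∈ Sᶜ, ρ s(q, y) := by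
  have h2 : ((Sᶜ.filter (fun y => G.Adj q y)).card : ℝ) ≤ ∑ y ∈ Sᶜ, ρ s(q, y) := by
    calc ((Sᶜ.filter (fun y => G.Adj q y)).card : ℝ)
        = ∑ y ∈ Sᶜ.filter (fun y => G.Adj q y), (1 : ℝ) := by simp
      _ ≤ ∑ y ∈ Sᶜ.filter (fun y => G.Adj q y), ρ s(q, y) := by
          apply Finset.sum_le_sum
          intro y hy
          rw [Finset.mem_filter] at hy
          exact h1 _ hy.2
      _ ≤ ∑ y ∈ Sᶜ, ρ s(q, y) := by
          apply Finset.sum_le_sum_of_subset_of_nonneg (Finset.filter_subset _ _)
          intro y _ _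
          exact h0 _
  have h3 : (Finset.univ : Finset V).filter (fun y => G.Adj q y)
      ⊆ Sᶜ.filter (fun y => G.Adj q y) ∪ S.erase q := by
    intro y hy
    rw [Finset.mem_filter] at hy
    rw [Finset.mem_union, Finset.mem_filter, Finset.mem_compl, Finset.mem_erase]
    by_cases hyS : y ∈ S
    · right
      exact ⟨hy.2.ne', hyS⟩
    · left
      exact ⟨hyS, hy.2⟩
  have h4 := (Finset.card_le_card h3).trans (Finset.card_union_le _ _)
  rw [Finset.card_erase_of_mem hq] at h4
  have h5 : 1 ≤ S.card := Finset.card_pos.mpr ⟨q, hq⟩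
  have h6 := hN q
  have h7 : N + 1 ≤ (Sᶜ.filter (fun y => G.Adj q y)).card + S.card := by omega
  have h8 : (N : ℝ) + 1 ≤ ((Sᶜ.filter (fun y => G.Adj q y)).card : ℝ) + S.card := by
    exact_mod_cast h7
  linarith

/-- Existence of an exact real fractional decomposition. -/
theorem exists_real (T : SimpleGraph U) (hT : T.IsTree) (G : SimpleGraph V)
    (n m : ℕ) (hm : m + 1 = Fintype.card U) (hm1 : 1 ≤ m)
    (hN : ∀ v, n + m ≤ ((Finset.univ : Finset V).filter (fun y => G.Adj v y)).card)
    (L : ℝ) (hL : 0 < L) (hL1 : L ≤ 1) (hB : L ≤ BB n (m - 1) L) :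
    ∃ ω : (U → V) → ℝ, (∀ φ, 0 ≤ ω φ) ∧
      ∀ e ∈ G.edgeSet, ∑ φ ∈ Homs T G, ω φ * cover T φ e = 1 := by
  set K : Set (Sym2 V → ℝ) := usage T G '' Set.Icc 0 (fun _ => 1 / L) with hK
  set target : Sym2 V → ℝ := fun e => if e ∈ G.edgeSet then 1 else 0 with htarget
  have hcont : Continuous (usage T G) := LinearMap.continuous_of_finiteDimensional _
  have hKc : IsCompact K := isCompact_Icc.image hcont
  have hKconv : Convex ℝ K := (convex_Icc _ _).linear_image (usage T G)
  by_cases hmem : target ∈ K
  · obtain ⟨ω, hω, hωt⟩ := hmem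
    refine ⟨ω, fun φ => hω.1 φ, ?_⟩
    intro e he
    rw [← usage_apply, hωt, htarget]
    simp [he]
  · exfalso
    obtain ⟨f, u, hfK, hft⟩ := geometric_hahn_banach_closed_point hKconv hKc.isClosed hmem
    set w : Sym2 V → ℝ := fun e => f (fun j => if e = j then 1 else 0) with hw
    have hfw : ∀ v : Sym2 V → ℝ, f v = ∑ e, v e * w e := by
      intro v
      have := LinearMap.pi_apply_eq_sum_univ (f : (Sym2 V → ℝ) →ₗ[ℝ] ℝ) v
      simpa [hw] using this
    -- the weights
    set ρ : Sym2 V → ℝ := fun e => if e ∈ G.edgeSet then (if 0 < w e then 1 / L else 1) else 0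
      with hρ
    have hLinv : 1 ≤ 1 / L := by rw [le_div_iff₀ hL]; linarith
    have hρ0 : ∀ e, 0 ≤ ρ e := by
      intro e
      simp only [hρ]
      split_ifs
      · positivity
      · norm_num
      · exact le_refl _
    have hρ1 : ∀ e ∈ G.edgeSet, 1 ≤ ρ e := by
      intro e he
      simp only [hρ, he, if_true]
      split_ifs
      · exact hLinv
      · exact le_refl _
    have hρR : ∀ e, ρ e ≤ 1 / L := by
      intro e
      simp only [hρ]
      split_ifs
      · exact le_refl _
      · exact hLinv
      · positivity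
    have hρoff : ∀ e, e ∉ G.edgeSet → ρ e = 0 := by
      intro e he
      simp only [hρ, he, if_false]
    have hLR : L * (1 / L) ≤ 1 := by
      rw [mul_one_div_cancel hL.ne']
    have hm0 : (0 : ℝ) < 2 * m := by
      have : (0 : ℝ) < m := by exact_mod_cast hm1
      linarith
    have hus : ∀ e ∈ G.edgeSet, (2 * m : ℝ) * (ρ e * BB n (m - 1) L)
        ≤ ∑ φ ∈ Homs T G, WW T ρ L φ * cover T φ e ∧
        ∑ φ ∈ Homs T G, WW T ρ L φ * cover T φ e ≤ (2 * m : ℝ) * ρ e := by
      intro e he
      rw [sum_homs_eq T G ρ L hρoff e]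
      induction e with
      | _ z y =>
        refine usage_bounds T hT ρ L (1 / L) n m hm hm1 hL.le hLR hρ0 hρR ?_ z y ?_
        · intro S q hq
          have := degree_sum G ρ (n + m) hN hρ0 hρ1 S q hq
          push_cast at this
          exact this
        · rw [SimpleGraph.mem_edgeSet] at he
          exact he.ne
    have hWW0 : ∀ φ, 0 ≤ WW T ρ L φ := fun φ =>
      WW_nonneg T ρ L (1 / L) hL.le (by positivity) hLR hρ0 hρR φ
    set ω : (U → V) → ℝ := fun φ => if φ ∈ Homs T G then WW T ρ L φ / (2 * m) else 0 with hω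
    have hωK : ω ∈ Set.Icc (0 : (U → V) → ℝ) (fun _ => 1 / L) := by
      constructor
      · intro φ
        simp only [hω, Pi.zero_apply]
        split_ifs
        · exact div_nonneg (hWW0 φ) hm0.le
        · exact le_refl _
      · intro φ
        simp only [hω]
        split_ifs with hφ
        · -- φ covers an edge
          have hne : T.edgeFinset.Nonempty := by
            rw [← Finset.card_pos]
            have := hT.card_edgeFinset
            omega
          obtain ⟨e', he'⟩ := hne
          rw [SimpleGraph.mem_edgeFinset] at he'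
          have hcov : cover T φ (Sym2.map φ e') = 1 := by
            unfold cover
            rw [if_pos ⟨e', he', rfl⟩]
          have heG : Sym2.map φ e' ∈ G.edgeSet := by
            rw [mem_Homs] at hφ
            induction e' with
            | _ a b =>
              rw [Sym2.map_mk, SimpleGraph.mem_edgeSet]
              exact hφ.2 a b he'
          have h1 : WW T ρ L φ * cover T φ (Sym2.map φ e')
              ≤ ∑ φ' ∈ Homs T G, WW T ρ L φ' * cover T φ' (Sym2.map φ e') :=
            Finset.single_le_sum (f := fun φ' => WW T ρ L φ' * cover T φ' (Sym2.map φ e'))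
              (fun φ' _ => mul_nonneg (hWW0 φ') (cover_nonneg _ _ _)) hφ
          rw [hcov, mul_one] at h1
          have h2 := (hus _ heG).2
          have h3 := hρR (Sym2.map φ e')
          rw [div_le_iff₀ hm0]
          have h4 : (2 * m : ℝ) * ρ (Sym2.map φ e') ≤ (2 * m : ℝ) * (1 / L) :=
            mul_le_mul_of_nonneg_left h3 hm0.le
          linarith
        · positivity
    have hk := hfK (usage T G ω) ⟨ω, hωK, rfl⟩
    have hcmp : f target ≤ f (usage T G ω) := by
      rw [hfw, hfw]
      apply Finset.sum_le_sum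
      intro e _
      have hval : usage T G ω e
          = (∑ φ ∈ Homs T G, WW T ρ L φ * cover T φ e) / (2 * m) := by
        rw [usage_apply, Finset.sum_div]
        apply Finset.sum_congr rfl
        intro φ hφ
        simp only [hω, hφ, if_true]
        ring
      by_cases he : e ∈ G.edgeSet
      · have ht : target e = 1 := by simp [htarget, he]
        rw [ht, hval]
        obtain ⟨h1, h2⟩ := hus e he
        by_cases hwe : 0 < w e
        · have hρe : ρ e = 1 / L := by simp [hρ, he, hwe]
          apply mul_le_mul_of_nonneg_right _ hwe.le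
          rw [le_div_iff₀ hm0, one_mul]
          refine le_trans ?_ h1
          rw [hρe]
          have : 1 ≤ 1 / L * BB n (m - 1) L := by
            rw [div_mul_eq_mul_div, one_mul, le_div_iff₀ hL, one_mul]
            exact hB
          nlinarith
        · have hρe : ρ e = 1 := by simp [hρ, he, hwe]
          push Not at hwe
          apply mul_le_mul_of_nonpos_right _ hwe
          rw [div_le_iff₀ hm0]
          rw [hρe] at h2
          linarith
      · have ht : target e = 0 := by simp [htarget, he]
        have hz : usage T G ω e = 0 := by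
          rw [usage_apply]
          apply Finset.sum_eq_zero
          intro φ hφ
          rw [cover_off T G φ hφ e he, mul_zero]
        rw [ht, hz]
    linarith

end Pool.Agent.Lib.FracTree
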