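import Mathlib

set_option autoImplicit false
set_option linter.unusedSectionVars false

namespace Pool.Agent.Lib.FracTree

open Finset Classical

/-- A rational-linear functional on the reals that is normalised and positive on finitely many
given positive numbers. -/
lemma exists_rat_functional (S : Finset ℝ) (hS : ∀ s ∈ S, 0 < s) :
    ∃ f : ℝ →ₗ[ℚ] ℚ, f 1 = 1 ∧ ∀ s ∈ S, 0 < f s := by
  set W : Submodule ℚ ℝ := Submodule.span ℚ ((insert 1 S : Finset ℝ) : Set ℝ) with hW
  have : FiniteDimensional ℚ W := FiniteDimensional.span_finset ℚ _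
  let b := Module.finBasis ℚ W
  have hmem : ∀ s ∈ insert 1 S, s ∈ W := fun s hs => Submodule.subset_span (by exact_mod_cast hs)
  -- evaluation at a real point
  let Φ : W → (Fin (Module.finrank ℚ W) → ℝ) → ℝ := fun x r => ∑ i, (b.repr x i : ℝ) * r i
  have hΦc : ∀ x, Continuous (Φ x) := by
    intro x
    simp only [Φ]
    fun_prop
  have hΦb : ∀ x : W, Φ x (fun i => (b i : ℝ)) = (x : ℝ) := by
    intro x
    have h := congrArg (fun y : W => (y : ℝ)) (b.sum_repr x)
    refine Eq.trans ?_ h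
    simp only [Φ]
    rw [Submodule.coe_sum]
    apply Finset.sum_congr rfl
    intro i _
    rw [Submodule.coe_smul, Rat.smul_def]
  have hpos : ∀ s ∈ insert 1 S, 0 < s := by
    intro s hs
    rw [Finset.mem_insert] at hs
    rcases hs with rfl | hs
    · norm_num
    · exact hS s hs
  let O : Set (Fin (Module.finrank ℚ W) → ℝ) :=
    {r | ∀ s : {s // s ∈ insert 1 S}, 0 < Φ ⟨s.1, hmem s.1 s.2⟩ r}
  have hO : IsOpen O := by
    have : O = ⋂ s : {s // s ∈ insert 1 S}, {r | 0 < Φ ⟨s.1, hmem s.1 s.2⟩ r} := by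
      ext r
      simp only [O, Set.mem_iInter]
      rfl
    rw [this]
    apply isOpen_iInter_of_finite
    intro s
    exact isOpen_lt continuous_const (hΦc _)
  have hOne : O.Nonempty := by
    refine ⟨fun i => (b i : ℝ), ?_⟩
    intro s
    rw [hΦb]
    exact hpos s.1 s.2
  have hdense : DenseRange (fun (r : Fin (Module.finrank ℚ W) → ℚ) i => ((r i : ℚ) : ℝ)) :=
    DenseRange.piMap (fun _ => Rat.denseRange_cast)
  obtain ⟨r, hr⟩ := hdense.exists_mem_open hO hOne
  let g : W →ₗ[ℚ] ℚ := b.constr ℚ r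
  have hg : ∀ x : W, ((g x : ℚ) : ℝ) = Φ x (fun i => ((r i : ℚ) : ℝ)) := by
    intro x
    simp only [g, Φ, Module.Basis.constr_apply_fintype]
    push_cast
    apply Finset.sum_congr rfl
    intro i _
    simp
  have hgpos : ∀ s (hs : s ∈ insert 1 S), 0 < g ⟨s, hmem s hs⟩ := by
    intro s hs
    have := hr ⟨s, hs⟩
    rw [← hg] at this
    exact_mod_cast this
  have h1 := hgpos 1 (Finset.mem_insert_self _ _)
  obtain ⟨F, hF⟩ := LinearMap.exists_extend ((g ⟨1, hmem 1 (Finset.mem_insert_self _ _)⟩)⁻¹ • g)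
  have hFx : ∀ x (hx : x ∈ W), F x = (g ⟨1, hmem 1 (Finset.mem_insert_self _ _)⟩)⁻¹ * g ⟨x, hx⟩ := by
    intro x hx
    have := LinearMap.congr_fun hF ⟨x, hx⟩
    simpa using this
  refine ⟨F, ?_, ?_⟩
  · rw [hFx 1 (hmem 1 (Finset.mem_insert_self _ _))]
    exact inv_mul_cancel₀ h1.ne'
  · intro s hs
    rw [hFx s (hmem s (Finset.mem_insert_of_mem hs))]
    exact mul_pos (inv_pos.mpr h1) (hgpos s (Finset.mem_insert_of_mem hs))

/-- From real weights to integer multiplicities. -/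
theorem exists_nat_weights {Φ E : Type*} (H : Finset Φ) (D : Set E) (cov : Φ → E → Prop)
    (ω : Φ → ℝ) (hω : ∀ φ, 0 ≤ ω φ)
    (hsum : ∀ e ∈ D, ∑ φ ∈ H, ω φ * (if cov φ e then 1 else 0) = 1) :
    ∃ (N : ℕ) (c : Φ → ℕ), 0 < N ∧
      ∀ e ∈ D, ∑ φ ∈ H, c φ * (if cov φ e then 1 else 0) = N := by
  obtain ⟨f, hf1, hfpos⟩ := exists_rat_functional ((H.image ω).filter (fun x => 0 < x))
    (fun s hs => (Finset.mem_filter.mp hs).2)
  have hq0 : ∀ φ ∈ H, 0 ≤ f (ω φ) := by
    intro φ hφ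
    rcases (hω φ).eq_or_lt with h | h
    · rw [← h, map_zero]
    · exact (hfpos _ (Finset.mem_filter.mpr ⟨Finset.mem_image_of_mem ω hφ, h⟩)).le
  have hqs : ∀ e ∈ D, ∑ φ ∈ H, f (ω φ) * (if cov φ e then 1 else 0) = 1 := by
    intro e he
    have h := congrArg f (hsum e he)
    rw [map_sum, hf1] at h
    refine Eq.trans ?_ h
    apply Finset.sum_congr rfl
    intro φ _
    split_ifs <;> simp
  -- common denominator
  set N : ℕ := ∏ φ ∈ H, (f (ω φ)).den with hN
  have hN0 : 0 < N := Finset.prod_pos (fun φ _ => (f (ω φ)).den_pos)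
  have hc : ∀ φ ∈ H, ∃ c : ℕ, (c : ℚ) = f (ω φ) * N := by
    intro φ hφ
    obtain ⟨d, hd⟩ : (f (ω φ)).den ∣ N := Finset.dvd_prod_of_mem _ hφ
    refine ⟨(f (ω φ)).num.toNat * d, ?_⟩
    have h1 : (((f (ω φ)).num.toNat : ℕ) : ℚ) = (f (ω φ)).num := by
      have : (((f (ω φ)).num.toNat : ℕ) : ℤ) = (f (ω φ)).num :=
        Int.toNat_of_nonneg (Rat.num_nonneg.mpr (hq0 φ hφ))
      exact_mod_cast congrArg (fun z : ℤ => (z : ℚ)) this
    have h2 : f (ω φ) * ((f (ω φ)).den : ℚ) = (f (ω φ)).num := Rat.mul_den_eq_num _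
    rw [hd]
    push_cast
    rw [h1, ← h2]
    ring
  choose! c hc using hc
  refine ⟨N, c, hN0, ?_⟩
  intro e he
  have h := hqs e he
  have h2 : ((∑ φ ∈ H, c φ * (if cov φ e then 1 else 0) : ℕ) : ℚ) = (N : ℚ) := by
    push_cast
    calc ∑ φ ∈ H, (c φ : ℚ) * (if cov φ e then 1 else 0)
        = ∑ φ ∈ H, (f (ω φ) * (if cov φ e then 1 else 0)) * N := by
          apply Finset.sum_congr rfl
          intro φ hφ
          rw [hc φ hφ]
          ring
      _ = N := by rw [← Finset.sum_mul, h, one_mul]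
  exact_mod_cast h2

end Pool.Agent.Lib.FracTree
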