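import Mathlib
import Pool.Agent.Lib.MP_df0165_co.Frac.Numeric

set_option autoImplicit false

namespace Pool.Agent.Lib.FracTree

open Finset

/-- Partial sums of the negative binomial law. -/
noncomputable def SS (p q : ℝ) (n k : ℕ) : ℝ :=
  ∑ j ∈ range k, ((n + j).choose j : ℝ) * p ^ j * q ^ (n + 1)

lemma SS_succ (p q : ℝ) (n k : ℕ) :
    SS p q n (k + 1) = SS p q n k + ((n + k).choose k : ℝ) * p ^ k * q ^ (n + 1) := by
  unfold SS
  rw [Finset.sum_range_succ]

lemma SS_pascal (p q : ℝ) (hpq : p + q = 1) (n k : ℕ) :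
    SS p q (n + 1) (k + 1) = SS p q n (k + 1)
      - ((n + 1 + k).choose k : ℝ) * p ^ (k + 1) * q ^ (n + 1) := by
  induction k with
  | zero =>
    have hq : q = 1 - p := by linarith
    simp [SS]
    rw [pow_succ q (n + 1), hq]
    ring
  | succ k ih =>
    rw [SS_succ p q (n + 1) (k + 1), ih, SS_succ p q n (k + 1)]
    have hc : ((n + 1 + (k + 1)).choose (k + 1) : ℝ)
        = ((n + 1 + k).choose k : ℝ) + ((n + (k + 1)).choose (k + 1) : ℝ) := by
      have h1 : n + 1 + (k + 1) = (n + 1 + k) + 1 := by ring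
      have h2 : n + (k + 1) = n + 1 + k := by ring
      rw [h1, h2, Nat.choose_succ_succ']
      push_cast
      ring
    have hq : q = 1 - p := by linarith
    rw [hc]
    rw [pow_succ q (n + 1)]
    have : ((n + 1 + k).choose k : ℝ) * p ^ (k + 1) * q ^ (n + 1)
      = ((n + 1 + k).choose k : ℝ) * p ^ (k + 1) * q ^ (n + 1) * (p + q) := by
      rw [hpq, mul_one]
    have h3 : ((n + (k + 1)).choose (k + 1) : ℝ) * p ^ (k + 1) * q ^ (n + 1)
      = ((n + (k + 1)).choose (k + 1) : ℝ) * p ^ (k + 1) * q ^ (n + 1) * (p + q) := by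
      rw [hpq, mul_one]
    rw [h3]
    rw [this]
    ring

lemma SS_step (p q : ℝ) (hpq : p + q = 1) (k : ℕ) :
    SS p q (k + 3) (k + 2) = SS p q (k + 2) (k + 1)
      + q ^ (k + 3) * p ^ (k + 1) *
        (((2 * k + 3).choose (k + 1) : ℝ) - p * ((2 * k + 4).choose (k + 1) : ℝ)) := by
  have h := SS_pascal p q hpq (k + 2) (k + 1)
  rw [show k + 2 + 1 = k + 3 from rfl, show k + 1 + 1 = k + 2 from rfl] at h
  rw [h, SS_succ]
  rw [show k + 2 + (k + 1) = 2 * k + 3 by ring, show k + 3 + (k + 1) = 2 * k + 4 by ring,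
    show k + 2 + 1 = k + 3 from rfl]
  ring

lemma SS_small : ∀ k, k ≤ 6 → SS (57/100) (43/100) (k + 2) (k + 1) ≤ 15 / 100 := by
  intro k hk
  interval_cases k <;> norm_num [SS, Finset.sum_range_succ, Nat.choose]

lemma SS_le (k : ℕ) : SS (57/100) (43/100) (k + 2) (k + 1) ≤ 15 / 100 := by
  by_cases hk : k ≤ 6
  · exact SS_small k hk
  · push Not at hk
    induction k with
    | zero => omega
    | succ k ih =>
      have hprev : SS (57/100) (43/100) (k + 2) (k + 1) ≤ 15 / 100 := by
        by_cases h6 : k ≤ 6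
        · exact SS_small k h6
        · exact ih (by omega)
      rw [show k + 1 + 2 = k + 3 from rfl, show k + 1 + 1 = k + 2 from rfl,
        SS_step _ _ (by norm_num) k]
      have hc : ((2 * k + 3).choose (k + 1) : ℝ) * (2 * k + 4)
          = ((2 * k + 4).choose (k + 1) : ℝ) * (k + 3) := by
        have := Nat.choose_mul_succ_eq (2 * k + 3) (k + 1)
        have h2 : 2 * k + 3 + 1 - (k + 1) = k + 3 := by omega
        rw [h2] at this
        exact_mod_cast this
      have hc0 : (0 : ℝ) ≤ ((2 * k + 4).choose (k + 1) : ℝ) := by positivity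
      have hk' : (6 : ℝ) ≤ k := by exact_mod_cast (by omega : 6 ≤ k)
      have hneg : ((2 * k + 3).choose (k + 1) : ℝ)
          - 57 / 100 * ((2 * k + 4).choose (k + 1) : ℝ) ≤ 0 := by
        have h4 : (0 : ℝ) < 2 * k + 4 := by positivity
        have : ((2 * k + 3).choose (k + 1) : ℝ) * (2 * k + 4)
            ≤ 57 / 100 * ((2 * k + 4).choose (k + 1) : ℝ) * (2 * k + 4) := by
          rw [hc]
          have : (k : ℝ) + 3 ≤ 57 / 100 * (2 * k + 4) := by linarith
          calc ((2 * k + 4).choose (k + 1) : ℝ) * (k + 3)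
              ≤ ((2 * k + 4).choose (k + 1) : ℝ) * (57 / 100 * (2 * k + 4)) :=
                mul_le_mul_of_nonneg_left this hc0
            _ = _ := by ring
        have := le_of_mul_le_mul_right this h4
        linarith
      have hpos : (0 : ℝ) ≤ (43/100) ^ (k + 3) * (57/100) ^ (k + 1) := by positivity
      have := mul_nonpos_of_nonneg_of_nonpos hpos hneg
      linarith

/-- The time horizon. -/
noncomputable def LL : ℝ := Real.log (100 / 43)

lemma LL_pos : 0 < LL := Real.log_pos (by norm_num)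

lemma exp_neg_LL : Real.exp (-LL) = 43 / 100 := by
  unfold LL
  rw [Real.exp_neg, Real.exp_log (by norm_num)]
  norm_num

lemma LL_le : LL ≤ 85 / 100 := by
  unfold LL
  rw [Real.log_le_iff_le_exp (by norm_num)]
  have h := Real.sum_le_exp_of_nonneg (show (0 : ℝ) ≤ 85 / 100 by norm_num) 7
  refine le_trans ?_ h
  norm_num [Finset.sum_range_succ, Nat.factorial]

/-- The mass of the process is at least the time horizon. -/
lemma BB_LL (m : ℕ) (hm : 1 ≤ m) : LL ≤ BB m (m - 1) LL := by
  obtain ⟨k, rfl⟩ : ∃ k, m = k + 1 := ⟨m - 1, by omega⟩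
  rw [Nat.add_sub_cancel]
  rcases k with _ | k
  · rw [BB_zero]
    have := LL_le
    linarith
  · have h : BB (k + 1 + 1) (k + 1) LL = 1 - SS (57/100) (43/100) (k + 2) (k + 1) := by
      unfold BB SS EE
      rw [exp_neg_LL]
      norm_num
    rw [h]
    have h1 := SS_le k
    have h2 := LL_le
    linarith

end Pool.Agent.Lib.FracTree
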