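import Mathlib
import Pool.Agent.Lib.MP_df0165_co.Frac.Dual
import Pool.Agent.Lib.MP_df0165_co.Frac.Rational
import Pool.Agent.Lib.MP_df0165_co.Frac.Numeric2

set_option autoImplicit false
set_option linter.unusedSectionVars false

namespace Pool.Agent.Lib.FracTree

open Finset Classical

variable {U V : Type} [Fintype U] [Fintype V]

/-- General form: minimum degree `n + m`, where the tail bound `L ≤ BB n (m-1) L` holds. -/
theorem exists_multiple (T : SimpleGraph U) (hT : T.IsTree) (G : SimpleGraph V)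
    (n m : ℕ) (hm : m + 1 = Fintype.card U) (hm1 : 1 ≤ m)
    (hN : ∀ v, n + m ≤ ((Finset.univ : Finset V).filter (fun y => G.Adj v y)).card)
    (L : ℝ) (hL : 0 < L) (hL1 : L ≤ 1) (hB : L ≤ BB n (m - 1) L) :
    ∃ (N k : ℕ) (f : Fin k → (T →g G)), 0 < N ∧ (∀ i, Function.Injective (f i)) ∧
      ∀ e ∈ G.edgeSet,
        {p : Fin k × Sym2 U | p.2 ∈ T.edgeSet ∧ Sym2.map (⇑(f p.1)) p.2 = e}.ncard = N := by
  obtain ⟨ω, hω0, hω1⟩ := exists_real T hT G n m hm hm1 hN L hL hL1 hB
  obtain ⟨N, c, hN0, hc0⟩ := exists_nat_weights (Homs T G) G.edgeSet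
    (fun φ e => ∃ e' ∈ T.edgeSet, Sym2.map φ e' = e) ω hω0 (by
      intro e he
      have h := hω1 e he
      unfold cover at h
      convert h)
  have hc : ∀ e ∈ G.edgeSet, ∑ φ ∈ Homs T G, c φ *
      (if ∃ e' ∈ T.edgeSet, Sym2.map φ e' = e then 1 else 0) = N := by
    intro e he
    convert hc0 e he
  -- the index type
  let ι : Type := Σ φ : {φ : U → V // φ ∈ Homs T G}, Fin (c φ.1)
  let F : ι → (T →g G) := fun i => ⟨i.1.1, fun {a b} hab => (mem_Homs.mp i.1.2).2 a b hab⟩
  have hFc : ∀ i : ι, (⇑(F i) : U → V) = i.1.1 := fun i => rfl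
  have hcount : ∀ e ∈ G.edgeSet,
      {p : ι × Sym2 U | p.2 ∈ T.edgeSet ∧ Sym2.map (⇑(F p.1)) p.2 = e}.ncard = N := by
    intro e he
    rw [← hc e he]
    have h1 : {p : ι × Sym2 U | p.2 ∈ T.edgeSet ∧ Sym2.map (⇑(F p.1)) p.2 = e}
        = ((Finset.univ : Finset (ι × Sym2 U)).filter
          (fun p => p.2 ∈ T.edgeSet ∧ Sym2.map (⇑(F p.1)) p.2 = e) : Finset (ι × Sym2 U)) := by
      ext p
      simp
    rw [h1, Set.ncard_coe_finset, Finset.card_filter, Fintype.sum_prod_type]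
    have h2 : ∀ i : ι, ∑ e' : Sym2 U, (if e' ∈ T.edgeSet ∧ Sym2.map (⇑(F i)) e' = e then 1 else 0)
        = if ∃ e' ∈ T.edgeSet, Sym2.map i.1.1 e' = e then 1 else 0 := by
      intro i
      by_cases hex : ∃ e' ∈ T.edgeSet, Sym2.map i.1.1 e' = e
      · rw [if_pos hex]
        obtain ⟨e', he', hmap⟩ := hex
        rw [Finset.sum_eq_single e']
        · rw [if_pos]
          exact ⟨he', by rw [hFc]; exact hmap⟩
        · intro e'' _ hne
          rw [if_neg]
          rintro ⟨_, h⟩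
          rw [hFc, ← hmap] at h
          exact hne (Sym2.map.injective (mem_Homs.mp i.1.2).1 h)
        · intro h; exact absurd (Finset.mem_univ _) h
      · rw [if_neg hex]
        apply Finset.sum_eq_zero
        intro e' _
        rw [if_neg]
        rintro ⟨h1, h2⟩
        exact hex ⟨e', h1, h2⟩
    rw [Finset.sum_congr rfl (fun i _ => h2 i), Fintype.sum_sigma]
    refine Eq.trans ?_ (Finset.sum_coe_sort (Homs T G)
      (fun φ => c φ * (if ∃ e' ∈ T.edgeSet, Sym2.map φ e' = e then 1 else 0)))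
    apply Finset.sum_congr rfl
    intro φ _
    simp
  refine ⟨N, Fintype.card ι, fun i => F ((Fintype.equivFin ι).symm i), hN0, ?_, ?_⟩
  · intro i
    exact (mem_Homs.mp ((Fintype.equivFin ι).symm i).1.2).1
  · intro e he
    rw [← hcount e he]
    have hbij : Set.BijOn (fun p : Fin (Fintype.card ι) × Sym2 U =>
        (((Fintype.equivFin ι).symm p.1, p.2) : ι × Sym2 U))
        {p | p.2 ∈ T.edgeSet ∧ Sym2.map (⇑(F ((Fintype.equivFin ι).symm p.1))) p.2 = e}
        {p | p.2 ∈ T.edgeSet ∧ Sym2.map (⇑(F p.1)) p.2 = e} := by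
      refine ⟨?_, ?_, ?_⟩
      · intro p hp; exact hp
      · intro p _ p' _ h
        simp only [Prod.mk.injEq, EmbeddingLike.apply_eq_iff_eq] at h
        exact Prod.ext h.1 h.2
      · rintro ⟨i, e'⟩ h
        refine ⟨(Fintype.equivFin ι i, e'), ?_, ?_⟩
        · show e' ∈ T.edgeSet ∧ _
          simpa using h
        · simp
    exact Set.ncard_congr (fun p _ => ((Fintype.equivFin ι).symm p.1, p.2))
      (fun p hp => hbij.1 hp) (fun p q hp hq h => hbij.2.1 hp hq h)
      (fun q hq => by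
        obtain ⟨p, hp, hpq⟩ := hbij.2.2 hq
        exact ⟨p, hp, hpq⟩)

/-- **Fractional Graham–Häggkvist theorem.** -/
theorem fractional_graham_haggkvist (T : SimpleGraph U) (hT : T.IsTree)
    (hm : 0 < T.edgeSet.ncard) (G : SimpleGraph V)
    (hdeg : ∀ v, 2 * T.edgeSet.ncard ≤ ((Finset.univ : Finset V).filter (fun y => G.Adj v y)).card) :
    ∃ (N k : ℕ) (f : Fin k → (T →g G)), 0 < N ∧ (∀ i, Function.Injective (f i)) ∧
      ∀ e ∈ G.edgeSet,
        {p : Fin k × Sym2 U | p.2 ∈ T.edgeSet ∧ Sym2.map (⇑(f p.1)) p.2 = e}.ncard = N := by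
  have hcard : T.edgeSet.ncard + 1 = Fintype.card U := by
    have h := hT.card_edgeFinset
    rw [← h, ← SimpleGraph.coe_edgeFinset, Set.ncard_coe_finset]
  refine exists_multiple T hT G T.edgeSet.ncard T.edgeSet.ncard hcard hm (fun v => ?_) LL LL_pos ?_
    (BB_LL _ hm)
  · have := hdeg v
    omega
  · have := LL_le
    linarith

end Pool.Agent.Lib.FracTree
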